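import Mathlib
import Pool.Agent.Q192.HQ.Mn

/-!
# The heat evolution of a nonnegative trivariate quartic becomes a sum of squares

Q1 of `MP_ae0293_ag` has the answer YES: for every nonnegative polynomial `f` in three variables
of degree at most four which is not a sum of squares there is `T > 0` such that the heat evolution
`p_f (·, t) = ∑ k, t ^ k / k! • Δ ^ k f` is a sum of squares for every `t ≥ T`.

Proof found by helper41. The proof contains Hilbert's theorem on ternary quartics
(`Pool.Agent.Q192.HQ.hilbert`, after Choi and Lam).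
-/

namespace Pool.Agent.Results.MP_ae0293_ag.HeatFlowBecomesSOS

open MvPolynomial

/-- Finite sums of squares of real polynomials in three variables. -/
def IsSumOfSquares (f : MvPolynomial (Fin 3) ℝ) : Prop :=
  ∃ (n : ℕ) (g : Fin n → MvPolynomial (Fin 3) ℝ), f = ∑ i, g i ^ 2

/-- The Laplacian `Δ = ∂₁² + ∂₂² + ∂₃²` on polynomials. -/
noncomputable def laplacian (f : MvPolynomial (Fin 3) ℝ) : MvPolynomial (Fin 3) ℝ :=
  ∑ i, pderiv i (pderiv i f)

/-- The heat evolution `p_f (·, t) = ∑ k, t ^ k / k! • Δ ^ k f`. The sum is finite; all terms with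
`2 k > deg f` vanish, see the first part of `result`. -/
noncomputable def heatEvolution (f : MvPolynomial (Fin 3) ℝ) (t : ℝ) : MvPolynomial (Fin 3) ℝ :=
  ∑ k ∈ Finset.range (f.totalDegree + 1), C (t ^ k / k.factorial) * laplacian^[k] f

/-- The first part says that `heatEvolution` is the whole sum over all `k ≥ 0`: every finite sum
over `k < N` with `2 N > deg f` has the same value. The second part is the answer to Q1. -/
theorem result :
    (∀ (f : MvPolynomial (Fin 3) ℝ) (t : ℝ) (N : ℕ), f.totalDegree < 2 * N →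
      ∑ k ∈ Finset.range N, C (t ^ k / k.factorial) * laplacian^[k] f = heatEvolution f t) ∧
    ∀ f : MvPolynomial (Fin 3) ℝ, f.totalDegree ≤ 4 → (∀ x : Fin 3 → ℝ, 0 ≤ eval x f) →
      ¬ IsSumOfSquares f →
      ∃ T : ℝ, 0 < T ∧ ∀ t : ℝ, T ≤ t → IsSumOfSquares (heatEvolution f t) := by
  refine ⟨fun f t N h => Pool.Agent.Q192.HQ.heat_eq h t, fun f h1 h2 h3 => ?_⟩
  obtain ⟨T, hT, h⟩ := Pool.Agent.Q192.HQ.main h1 h2 h3
  exact ⟨T, hT, fun t ht => h t ht⟩

end Pool.Agent.Results.MP_ae0293_ag.HeatFlowBecomesSOS
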